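import Pool.Agent.Lib.MP_ae662e_lc.Kat

/-!
# The shift graph: finite Borel colourings go up in the Katetov order
-/

namespace Pool.Agent.Results.MP_ae662e_lc.KatetovMonotone

open ShiftGraph

theorem result (I J : Set (Set ℕ)) (hI : IsHer I) (hJ : IsHer J) (hm : MeasurableSet (Pos I)) (f : ℕ → ℕ)
    (hf : ∀ A ∈ I, f ⁻¹' A ∈ J) (k : ℕ) (hc : BorelColourable k (Pos I)) : BorelColourable 3 (Pos J) :=
  colour_of_katetov hI hm f hf hJ hc

end Pool.Agent.Results.MP_ae662e_lc.KatetovMonotone
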