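import Pool.Agent.Lib.MP_ae662e_lc.Sel

/-!
# The basis problem for the sets which are hereditary on their selective elements
-/

namespace Pool.Agent.Results.MP_ae662e_lc.SelectiveDichotomy

open ShiftGraph

theorem result (B : Set Seq) (C : ℕ → Seq → ℕ) (hC : ∀ i, Measurable (C i))
    (h : ∀ x ∈ B, (∀ i, EvInj (C i) x ∨ EvConst (C i) x) → ∀ y : Seq, toSet y ⊆ toSet x → y ∈ B) :
    (Cube B ∧ BorelHom B) ∨ BorelColourable 3 B :=
  selective_dichotomy B C hC h

end Pool.Agent.Results.MP_ae662e_lc.SelectiveDichotomy
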