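import Pool.Agent.Lib.MP_ae662e_lc.TameEx

/-!
# The basis problem for the sets given by the colours of the consecutive pairs
-/

namespace Pool.Agent.Results.MP_ae662e_lc.TamePatterns

open ShiftGraph

theorem result (k : ℕ) (τ : ℕ → ℕ → Fin k) (E : Set (ℕ → Fin k)) (hE : MeasurableSet E)
    (hinv : ∀ u : ℕ → Fin k, (fun n => u (n + 1)) ∈ E ↔ u ∈ E)
    (htame : ∀ i, (fun _ => i) ∈ E → Tame fun a b => τ a b = i) :
    MeasurableSet (Pattern τ E) ∧ Inv (Pattern τ E) ∧ (BorelHom (Pattern τ E) ∨ BorelColourable 3 (Pattern τ E)) :=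
  ⟨pattern_measurable τ hE, pattern_inv τ hinv, tame_pattern_dichotomy τ hinv htame⟩

end Pool.Agent.Results.MP_ae662e_lc.TamePatterns
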