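import Pool.Agent.Lib.MP_ae662e_lc.TF

/-!
# The basis problem for the positive sets of the ideals of the graphs with the triangle-free extension property
-/

namespace Pool.Agent.Results.MP_ae662e_lc.TriangleFreeIdeal

open ShiftGraph

theorem result (Γ : ℕ → ℕ → Prop) (h : IsTF Γ) :
    MeasurableSet (Pos (GI Γ)) ∧ Inv (Pos (GI Γ)) ∧ BorelHom (Pos (GI Γ)) ∧ ¬ Cube (Pos (GI Γ)) :=
  ⟨GI_measurable Γ, Pos_inv (GI_ideal Γ).her, TF_hom h, GI_no_cube h.symm⟩

end Pool.Agent.Results.MP_ae662e_lc.TriangleFreeIdeal
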